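import Mathlib

/-! # Two triangles determine the addition table of `ℤ / n` -/

set_option autoImplicit false

namespace Pool.Agent.Helper46.Late

theorem circ {n : ℕ} (L : ℕ → ℕ → ℕ)
    (hrow : ∀ i, i < n → ∀ s, s < n → ∃ j, j < n ∧ L i j = s)
    (hcol : ∀ i i' j, i < n → i' < n → j < n → L i j = L i' j → i = i')
    (p : ℕ) (h1 : ∀ i j, i < n → j < n → i + j < p → L i j = i + j)
    (h2 : ∀ i j, i < n → j < n → n + p ≤ i + j → L i j = i + j - n) :
    ∀ i j, i < n → j < n → L i j = if i + j < n then i + j else i + j - n := by
  have U : ∀ s, s < n → ∀ i j, i + j = s → L i j = s := by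
    intro s
    induction s using Nat.strong_induction_on with
    | _ s IH =>
      intro hs i
      induction i using Nat.strong_induction_on with
      | _ i IH2 =>
        intro j hij
        by_cases hp : s < p
        · rw [h1 i j (by omega) (by omega) (by omega)]; omega
        · obtain ⟨j', hj', hL⟩ := hrow i (by omega) s hs
          have e : j' = j := by
            by_contra hne
            rcases Nat.lt_or_ge s j' with h | h
            · have h3 := h2 (n + s - j') j' (by omega) hj' (by omega)
              have h4 := hcol i (n + s - j') j' (by omega) (by omega) hj' (by rw [hL, h3]; omega)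
              omega
            · rcases Nat.lt_or_ge (i + j') s with h5 | h5
              · have h6 := IH (i + j') h5 (by omega) i j' rfl
                omega
              · have h6 := IH2 (s - j') (by omega) j' (by omega)
                have h7 := hcol i (s - j') j' (by omega) (by omega) hj' (by rw [hL, h6])
                omega
          rw [← e, hL]
  have D : ∀ d s, s < n → d = n - s → ∀ k i j, k = n - i → i < n → j < n → i + j = n + s →
      L i j = s := by
    intro d
    induction d using Nat.strong_induction_on with
    | _ d IH =>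
      intro s hs hd k
      induction k using Nat.strong_induction_on with
      | _ k IH2 =>
        intro i j hk hi hj hij
        by_cases hp : p ≤ s
        · rw [h2 i j hi hj (by omega)]; omega
        · obtain ⟨j', hj', hL⟩ := hrow i hi s hs
          have e : j' = j := by
            by_contra hne
            rcases Nat.lt_or_ge s j' with h | h
            · rcases Nat.lt_or_ge (n + s) (i + j') with h5 | h5
              · have h6 := IH (n - (i + j' - n)) (by omega) (i + j' - n) (by omega) rfl (n - i) i
                  j' rfl hi hj' (by omega)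
                omega
              · have h6 := IH2 (n - (n + s - j')) (by omega) (n + s - j') j' rfl (by omega) hj'
                  (by omega)
                have h7 := hcol i (n + s - j') j' hi (by omega) hj' (by rw [hL, h6])
                omega
            · have h6 := U s hs (s - j') j' (by omega)
              have h7 := hcol i (s - j') j' hi (by omega) hj' (by rw [hL, h6])
              omega
          rw [← e, hL]
  intro i j hi hj
  split_ifs with h
  · exact U (i + j) h i j rfl
  · exact D _ (i + j - n) (by omega) rfl _ i j rfl hi hj (by omega)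

theorem circFin {n : ℕ} (T : Fin (n + 1) → Fin (n + 1) → Fin (n + 1))
    (hrow : ∀ a, Function.Surjective (T a)) (hcol : ∀ b, Function.Injective (fun a => T a b))
    (p : ℕ) (hp : p ≤ n + 1) (hC : ∀ a b : Fin (n + 1), (a.val + b.val < p ∨ n + 1 + p ≤ a.val + b.val) →
      T a b = a + b) (a b : Fin (n + 1)) : T a b = a + b := by
  have key : ∀ i (h : i < n + 1), Fin.ofNat (n + 1) i = ⟨i, h⟩ := by
    intro i h
    apply Fin.ext
    simp [Fin.ofNat, Nat.mod_eq_of_lt h]
  have hadd : ∀ x y : Fin (n + 1), (x + y).val = if x.val + y.val < n + 1 then x.val + y.val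
      else x.val + y.val - (n + 1) := by
    intro x y
    rw [Fin.val_add]
    split_ifs with h
    · exact Nat.mod_eq_of_lt h
    · rw [Nat.mod_eq_sub_mod (by omega), Nat.mod_eq_of_lt (by omega)]
  have := circ (n := n + 1)
    (fun i j => (T (Fin.ofNat (n + 1) i) (Fin.ofNat (n + 1) j)).val) ?_ ?_ p ?_ ?_ a.val b.val
    a.2 b.2
  · apply Fin.ext
    rw [hadd]
    simp only [key _ a.2, key _ b.2] at this
    exact this
  · intro i hi s hs
    obtain ⟨b', hb'⟩ := hrow (Fin.ofNat (n + 1) i) ⟨s, hs⟩
    refine ⟨b'.val, b'.2, ?_⟩
    show (T (Fin.ofNat (n + 1) i) (Fin.ofNat (n + 1) b'.val)).val = s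
    rw [key _ b'.2, Fin.eta, hb']
  · intro i i' j hi hi' hj h
    have h3 : T (Fin.ofNat (n + 1) i) (Fin.ofNat (n + 1) j) =
      T (Fin.ofNat (n + 1) i') (Fin.ofNat (n + 1) j) := Fin.ext h
    have h4 := hcol _ h3
    rw [key _ hi, key _ hi'] at h4
    exact congrArg Fin.val h4
  · intro i j hi hj h
    show (T (Fin.ofNat (n + 1) i) (Fin.ofNat (n + 1) j)).val = i + j
    rw [key _ hi, key _ hj, hC ⟨i, hi⟩ ⟨j, hj⟩ (Or.inl h), hadd]
    exact if_pos (show i + j < n + 1 by omega)
  · intro i j hi hj h
    show (T (Fin.ofNat (n + 1) i) (Fin.ofNat (n + 1) j)).val = i + j - (n + 1)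
    rw [key _ hi, key _ hj, hC ⟨i, hi⟩ ⟨j, hj⟩ (Or.inr h), hadd]
    rw [if_neg (by simp; omega)]

end Pool.Agent.Helper46.Late
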