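import Mathlib

/-!
# Division sudokus: definitions and bounds for critical sets
-/

set_option autoImplicit false

namespace Pool.Agent.Helper46.Late

/-- The set `X` with `m ^ 2` elements in `m` blocks of `m` elements: `(i, j)` is the element `j` of
the block `i`. -/
abbrev X (m : ℕ) : Type := Fin m × Fin m

/-- `O` is the orthogonal array `{(x, y, L(x, y))}` of a latin square `L` on `X`: for every two
positions, a triple in `O` can be prescribed there, and is then unique. -/
def IsLatin {m : ℕ} (O : Set (Fin 3 → X m)) : Prop :=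
  ∀ i j : Fin 3, i ≠ j → ∀ a b : X m, ∃! t : Fin 3 → X m, t ∈ O ∧ t i = a ∧ t j = b

/-- The conjugate: the coordinates of all triples are permuted. -/
def conj {m : ℕ} (θ : Equiv.Perm (Fin 3)) (O : Set (Fin 3 → X m)) : Set (Fin 3 → X m) :=
  {t | t ∘ θ ∈ O}

/-- A standard sudoku of rank `m`: a latin square such that the subsquare with the rows in the
block `i` and the columns in the block `j` contains all symbols. -/
def IsSudoku {m : ℕ} (O : Set (Fin 3 → X m)) : Prop :=
  IsLatin O ∧ ∀ (i j : Fin m) (z : X m), ∃ t ∈ O, (t 0).1 = i ∧ (t 1).1 = j ∧ t 2 = z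

/-- A standard division sudoku: all six conjugates are standard sudokus. -/
def IsDivision {m : ℕ} (O : Set (Fin 3 → X m)) : Prop :=
  ∀ θ : Equiv.Perm (Fin 3), IsSudoku (conj θ O)

/-- `S` determines `O`: it is contained in `O`, and in no other standard division sudoku. -/
def Determines {m : ℕ} (S O : Set (Fin 3 → X m)) : Prop :=
  S ⊆ O ∧ ∀ O' : Set (Fin 3 → X m), IsDivision O' → S ⊆ O' → O' = O

/-- `S` is a critical set of `O`: it determines `O` and no proper subset does. -/
def IsCritical {m : ℕ} (S O : Set (Fin 3 → X m)) : Prop :=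
  Determines S O ∧ ∀ S' : Set (Fin 3 → X m), S' ⊂ S → ¬ Determines S' O

/-- The smallest size of a critical set of a standard division sudoku of rank `m`. -/
noncomputable def c (m : ℕ) : ℕ :=
  sInf {k | ∃ O S : Set (Fin 3 → X m), IsDivision O ∧ IsCritical S O ∧ S.ncard = k}

variable {m : ℕ}

theorem isDivision_iff {O : Set (Fin 3 → X m)} : IsDivision O ↔ IsLatin O ∧
    ∀ p q r : Fin 3, p ≠ q → p ≠ r → q ≠ r → ∀ (i j : Fin m) (z : X m),
      ∃ t ∈ O, (t p).1 = i ∧ (t q).1 = j ∧ t r = z := by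
  constructor
  · intro h
    refine ⟨(h 1).1, fun p q r hpq hpr hqr i j z => ?_⟩
    have hinj : Function.Injective (![p, q, r] : Fin 3 → Fin 3) := by
      intro a b hab
      fin_cases a <;> fin_cases b <;> simp_all [eq_comm]
    let e : Equiv.Perm (Fin 3) := Equiv.ofBijective _ (Finite.injective_iff_bijective.1 hinj)
    have e0 : e.symm p = 0 := by rw [Equiv.symm_apply_eq]; rfl
    have e1 : e.symm q = 1 := by rw [Equiv.symm_apply_eq]; rfl
    have e2 : e.symm r = 2 := by rw [Equiv.symm_apply_eq]; rfl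
    obtain ⟨t, ht, h0, h1, h2⟩ := (h e.symm).2 i j z
    exact ⟨t ∘ e.symm, ht, by simp [e0, h0], by simp [e1, h1], by simp [e2, h2]⟩
  · rintro ⟨hL, hP⟩ θ
    refine ⟨fun i j hij a b => ?_, fun i j z => ?_⟩
    · obtain ⟨s, ⟨hs, h1, h2⟩, hu⟩ := hL (θ.symm i) (θ.symm j) (by simpa using hij) a b
      refine ⟨s ∘ θ.symm, ⟨?_, h1, h2⟩, ?_⟩
      · show (s ∘ θ.symm) ∘ θ ∈ O
        have : (s ∘ θ.symm) ∘ θ = s := by funext k; simp
        rw [this]; exact hs
      · rintro t ⟨ht, h3, h4⟩
        have := hu (t ∘ θ) ⟨ht, by simp [h3], by simp [h4]⟩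
        rw [← this]
        funext k; simp
    · obtain ⟨s, hs, h0, h1, h2⟩ := hP (θ.symm 0) (θ.symm 1) (θ.symm 2) (by simp) (by simp)
        (by simp) i j z
      refine ⟨s ∘ θ.symm, ?_, h0, h1, h2⟩
      show (s ∘ θ.symm) ∘ θ ∈ O
      have : (s ∘ θ.symm) ∘ θ = s := by funext k; simp
      rw [this]; exact hs

/-- Permutations of the rows, columns and symbols in their blocks. -/
theorem isDivision_map {O : Set (Fin 3 → X m)} (hO : IsDivision O) (σ : Fin 3 → Equiv.Perm (X m))
    (hσ : ∀ k x, (σ k x).1 = x.1) : IsDivision {t | (fun k => σ k (t k)) ∈ O} := by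
  rw [isDivision_iff] at hO ⊢
  obtain ⟨hL, hP⟩ := hO
  have hσ' : ∀ k x, ((σ k).symm x).1 = x.1 := fun k x => by
    have := hσ k ((σ k).symm x)
    rw [Equiv.apply_symm_apply] at this
    exact this.symm
  refine ⟨fun i j hij a b => ?_, fun p q r hpq hpr hqr i j z => ?_⟩
  · obtain ⟨s, ⟨hs, h1, h2⟩, hu⟩ := hL i j hij (σ i a) (σ j b)
    refine ⟨fun k => (σ k).symm (s k), ⟨?_, ?_, ?_⟩, ?_⟩
    · simpa using hs
    · simp [h1]
    · simp [h2]
    · rintro t ⟨ht, h3, h4⟩
      have := hu (fun k => σ k (t k)) ⟨ht, by simp [h3], by simp [h4]⟩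
      rw [← this]
      funext k; simp
  · obtain ⟨s, hs, h0, h1, h2⟩ := hP p q r hpq hpr hqr i j (σ r z)
    refine ⟨fun k => (σ k).symm (s k), by simpa using hs, by simp [hσ', h0], by simp [hσ', h1],
      by simp [h2]⟩

/-- Two rows of the same block cannot both be avoided by a determining set. -/
theorem row_unique {O S : Set (Fin 3 → X m)} (hO : IsDivision O) (hS : Determines S O)
    (r r' : X m) (h1 : r.1 = r'.1) (hr : ∀ t ∈ S, t 0 ≠ r) (hr' : ∀ t ∈ S, t 0 ≠ r') : r = r' := by
  by_contra hne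
  set σ : Fin 3 → Equiv.Perm (X m) := fun k => if k = 0 then Equiv.swap r r' else 1 with hσdef
  have hσ : ∀ k x, (σ k x).1 = x.1 := by
    intro k x
    by_cases hk : k = 0
    · simp only [hσdef, hk, if_true]
      rcases eq_or_ne x r with rfl | hx
      · simp [h1]
      · rcases eq_or_ne x r' with rfl | hx'
        · simp [h1]
        · rw [Equiv.swap_apply_of_ne_of_ne hx hx']
    · simp [hσdef, hk]
  have hO' := isDivision_map hO σ hσ
  have hsub : S ⊆ {t | (fun k => σ k (t k)) ∈ O} := by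
    intro t ht
    show (fun k => σ k (t k)) ∈ O
    have : (fun k => σ k (t k)) = t := by
      funext k
      by_cases hk : k = 0
      · subst hk
        simp only [hσdef, if_true]
        exact Equiv.swap_apply_of_ne_of_ne (hr t ht) (hr' t ht)
      · simp [hσdef, hk]
    rw [this]
    exact hS.1 ht
  have heq := hS.2 _ hO' hsub
  obtain ⟨hL, -⟩ := isDivision_iff.1 hO
  obtain ⟨t, ⟨ht, h3, -⟩, -⟩ := hL 0 1 (by decide) r r
  have ht' : t ∈ {t | (fun k => σ k (t k)) ∈ O} := by rw [heq]; exact ht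
  have ht'' : (fun k => σ k (t k)) ∈ O := ht'
  obtain ⟨s, -, hu⟩ := hL 1 2 (by decide) (t 1) (t 2)
  have e1 := hu t ⟨ht, rfl, rfl⟩
  have e2 := hu _ ⟨ht'', by simp [hσdef], by simp [hσdef]⟩
  have e3 : (fun k => σ k (t k)) 0 = t 0 := by rw [e2, ← e1]
  have e4 : σ 0 (t 0) = t 0 := e3
  rw [h3] at e4
  simp [hσdef] at e4
  exact hne e4.symm

theorem lower {O S : Set (Fin 3 → X m)} (hO : IsDivision O) (hS : Determines S O) :
    m * m - m ≤ S.ncard := by
  classical
  set R : Set (X m) := (fun t : Fin 3 → X m => t 0) '' S with hR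
  have h1 : Rᶜ.ncard ≤ (Set.univ : Set (Fin m)).ncard := by
    refine Set.ncard_le_ncard_of_injOn (fun x : X m => x.1) (fun _ _ => Set.mem_univ _) ?_
      Set.finite_univ
    intro r hr r' hr' h
    refine row_unique hO hS r r' h (fun t ht hc => hr ⟨t, ht, hc⟩) (fun t ht hc => hr' ⟨t, ht, hc⟩)
  rw [Set.ncard_univ, Nat.card_eq_fintype_card, Fintype.card_fin] at h1
  have h2 := Set.ncard_add_ncard_compl R
  rw [Nat.card_eq_fintype_card, Fintype.card_prod, Fintype.card_fin] at h2
  have h3 : R.ncard ≤ S.ncard := Set.ncard_image_le (Set.toFinite S)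
  omega

end Pool.Agent.Helper46.Late
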