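import Pool.Agent.Helper46.Late.Sud

/-! # Upper bound for the smallest critical sets of division sudokus -/

set_option autoImplicit false

namespace Pool.Agent.Helper46.Late

variable {m : ℕ}

theorem latin_eq {O : Set (Fin 3 → X m)} (hL : IsLatin O) {i j : Fin 3} (hij : i ≠ j)
    {t t' : Fin 3 → X m} (ht : t ∈ O) (ht' : t' ∈ O) (h1 : t i = t' i) (h2 : t j = t' j) :
    t = t' := by
  obtain ⟨s, -, hu⟩ := hL i j hij (t i) (t j)
  rw [hu t ⟨ht, rfl, rfl⟩, hu t' ⟨ht', h1.symm, h2.symm⟩]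

theorem block_eq {O : Set (Fin 3 → X m)} (hO : IsDivision O) {p q r : Fin 3} (hpq : p ≠ q)
    (hpr : p ≠ r) (hqr : q ≠ r) {t t' : Fin 3 → X m} (ht : t ∈ O) (ht' : t' ∈ O)
    (h1 : (t p).1 = (t' p).1) (h2 : (t q).1 = (t' q).1) (h3 : t r = t' r) : t = t' := by
  obtain ⟨hL, hP⟩ := isDivision_iff.1 hO
  choose f hf hf1 hf2 hf3 using hP p q r hpq hpr hqr (t p).1 (t q).1
  have hinj : Function.Injective (fun z : X m => (((f z p).2, (f z q).2) : X m)) := by
    intro z z' hzz
    have h4 : (f z p).2 = (f z' p).2 := congrArg (fun x : X m => x.1) hzz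
    have h5' := congrArg (fun x : X m => x.2) hzz
    have h5 : (f z q).2 = (f z' q).2 := h5'
    have h6 : f z = f z' := latin_eq hL hpq (hf z) (hf z')
      (Prod.ext ((hf1 z).trans (hf1 z').symm) h4) (Prod.ext ((hf2 z).trans (hf2 z').symm) h5)
    rw [← hf3 z, ← hf3 z', h6]
  have hsurj := Finite.injective_iff_surjective.1 hinj
  have key : ∀ s ∈ O, (s p).1 = (t p).1 → (s q).1 = (t q).1 → s = f (s r) := by
    intro s hs hs1 hs2
    obtain ⟨z, hz⟩ := hsurj ((s p).2, (s q).2)
    have h4 : (f z p).2 = (s p).2 := congrArg (fun x : X m => x.1) hz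
    have h5' := congrArg (fun x : X m => x.2) hz
    have h5 : (f z q).2 = (s q).2 := h5'
    have h6 : f z = s := latin_eq hL hpq (hf z) hs
      (Prod.ext ((hf1 z).trans hs1.symm) h4) (Prod.ext ((hf2 z).trans hs2.symm) h5)
    rw [← h6, hf3 z]
  rw [key t ht rfl rfl, key t' ht' h1.symm h2.symm, h3]

/-- The rows with a given second coordinate can be left out. -/
theorem determines_rows {O : Set (Fin 3 → X m)} (hO : IsDivision O) (a : Fin m) :
    Determines {t | t ∈ O ∧ (t 0).2 ≠ a} O := by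
  refine ⟨fun t ht => ht.1, fun O' hO' hsub => ?_⟩
  obtain ⟨hL, -⟩ := isDivision_iff.1 hO
  obtain ⟨hL', hP'⟩ := isDivision_iff.1 hO'
  have back : ∀ t ∈ O', (t 0).2 ≠ a → t ∈ O := by
    intro t ht hta
    obtain ⟨s, ⟨hs, h1, h2⟩, -⟩ := hL 0 1 (by decide) (t 0) (t 1)
    have hs' : s ∈ O' := hsub ⟨hs, by rw [h1]; exact hta⟩
    rw [← latin_eq hL' (i := 0) (j := 1) (by decide) hs' ht h1 h2]
    exact hs
  have hsub2 : O ⊆ O' := by
    intro t ht
    by_cases hta : (t 0).2 = a
    swap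
    · exact hsub ⟨ht, hta⟩
    obtain ⟨t', ⟨ht', h1, h2⟩, -⟩ := hL' 0 1 (by decide) (t 0) (t 1)
    have htype : (t 2).1 = (t' 2).1 := by
      obtain ⟨s, hs, hs0, hs2, hs1⟩ := hP' 0 2 1 (by decide) (by decide) (by decide)
        (t 0).1 (t 2).1 (t 1)
      by_cases hsa : (s 0).2 = a
      · have h4 : s = t' := latin_eq hL' (i := 0) (j := 1) (by decide) hs ht'
          (by rw [h1]; exact Prod.ext hs0 (hsa.trans hta.symm)) (by rw [h2, hs1])
        rw [← h4, hs2]
      · exfalso
        have h4 : s = t := block_eq hO (p := 0) (q := 2) (r := 1) (by decide) (by decide)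
          (by decide) (back s hs hsa) ht hs0 hs2 hs1
        exact hsa (by rw [h4]; exact hta)
    obtain ⟨s, hs, hs0, hs1, hs2⟩ := hP' 0 1 2 (by decide) (by decide) (by decide)
      (t 0).1 (t 1).1 (t 2)
    have h5 : s = t' := by
      by_cases hsa : (s 0).2 = a
      · refine block_eq hO' (p := 1) (q := 2) (r := 0) (by decide) (by decide) (by decide) hs ht'
          (by rw [hs1, h2]) (by rw [hs2, htype]) ?_
        rw [h1]
        exact Prod.ext hs0 (hsa.trans hta.symm)
      · exfalso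
        have h4 : s = t := block_eq hO (p := 0) (q := 1) (r := 2) (by decide) (by decide)
          (by decide) (back s hs hsa) ht hs0 hs1 hs2
        exact hsa (by rw [h4]; exact hta)
    have h6 : t' = t := by
      funext k
      fin_cases k
      · exact h1
      · exact h2
      · show t' 2 = t 2
        rw [← h5, hs2]
    rw [← h6]
    exact ht'
  refine Set.Subset.antisymm (fun t ht => ?_) hsub2
  obtain ⟨s, ⟨hs, h1, h2⟩, -⟩ := hL 0 1 (by decide) (t 0) (t 1)
  rw [← latin_eq hL' (i := 0) (j := 1) (by decide) (hsub2 hs) ht h1 h2]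
  exact hs

theorem exists_critical {O S : Set (Fin 3 → X m)} (h : Determines S O) :
    ∃ S', S' ⊆ S ∧ IsCritical S' O := by
  classical
  have hex : ∃ n, ∃ S' ⊆ S, Determines S' O ∧ S'.ncard = n := ⟨_, S, le_rfl, h, rfl⟩
  obtain ⟨S', h1, h2, h3⟩ := Nat.find_spec hex
  refine ⟨S', h1, h2, fun S'' h4 h5 => ?_⟩
  have h6 : S''.ncard < S'.ncard := Set.ncard_lt_ncard h4 (Set.toFinite _)
  rw [h3] at h6
  exact Nat.find_min hex h6 ⟨S'', h4.subset.trans h1, h5, rfl⟩

theorem ncard_rows {O : Set (Fin 3 → X m)} (hO : IsDivision O) (a : Fin m) :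
    {t | t ∈ O ∧ (t 0).2 ≠ a}.ncard ≤ (m * (m - 1)) * (m * m) := by
  classical
  obtain ⟨hL, -⟩ := isDivision_iff.1 hO
  set T : Finset (X m × X m) :=
    ((Finset.univ : Finset (Fin m)) ×ˢ (Finset.univ.erase a)) ×ˢ (Finset.univ : Finset (X m))
    with hT
  have hcard : T.card = (m * (m - 1)) * (m * m) := by
    rw [hT, Finset.card_product, Finset.card_product, Finset.card_erase_of_mem (Finset.mem_univ _)]
    simp [Fintype.card_prod]
  rw [← hcard, ← Set.ncard_coe_finset]
  refine Set.ncard_le_ncard_of_injOn (fun t : Fin 3 → X m => (t 0, t 1)) ?_ ?_ (Finset.finite_toSet _)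
  · intro t ht
    simp only [hT, Finset.coe_product, Set.mem_prod, Finset.mem_coe, Finset.mem_univ, true_and,
      Finset.mem_erase, and_true]
    exact ht.2
  · intro t ht t' ht' h
    exact latin_eq hL (i := 0) (j := 1) (by decide) ht.1 ht'.1 (congrArg Prod.fst h)
      (congrArg Prod.snd h)

end Pool.Agent.Helper46.Late
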