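import Pool.Agent.Helper46.Late.Sud2

/-! # A division sudoku of every rank -/

set_option autoImplicit false

namespace Pool.Agent.Helper46.Late

/-- `z₁ = x₂ + y₁ + y₂`, `z₂ = x₁ + y₂` -/
def O₀ (n : ℕ) : Set (Fin 3 → X (n + 1)) :=
  {t | (t 2).1 = (t 0).2 + (t 1).1 + (t 1).2 ∧ (t 2).2 = (t 0).1 + (t 1).2}

/-- the triple with given entries -/
def tr {m : ℕ} (x y z : X m) : Fin 3 → X m := ![x, y, z]

theorem latin_of_funs {m : ℕ} {O : Set (Fin 3 → X m)} (F G H : X m → X m → X m)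
    (h2 : ∀ t, t ∈ O ↔ t 2 = F (t 0) (t 1)) (h1 : ∀ t, t ∈ O ↔ t 1 = G (t 0) (t 2))
    (h0 : ∀ t, t ∈ O ↔ t 0 = H (t 1) (t 2)) : IsLatin O := by
  have k01 : ∀ a b : X m, ∃! t : Fin 3 → X m, t ∈ O ∧ t 0 = a ∧ t 1 = b := by
    intro a b
    refine ⟨![a, b, F a b], ⟨(h2 _).2 rfl, rfl, rfl⟩, ?_⟩
    rintro t ⟨ht, rfl, rfl⟩
    have := (h2 t).1 ht
    funext k
    fin_cases k
    · rfl
    · rfl
    · exact this
  have k02 : ∀ a b : X m, ∃! t : Fin 3 → X m, t ∈ O ∧ t 0 = a ∧ t 2 = b := by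
    intro a b
    refine ⟨![a, G a b, b], ⟨(h1 _).2 rfl, rfl, rfl⟩, ?_⟩
    rintro t ⟨ht, rfl, rfl⟩
    have := (h1 t).1 ht
    funext k
    fin_cases k
    · rfl
    · exact this
    · rfl
  have k12 : ∀ a b : X m, ∃! t : Fin 3 → X m, t ∈ O ∧ t 1 = a ∧ t 2 = b := by
    intro a b
    refine ⟨![H a b, a, b], ⟨(h0 _).2 rfl, rfl, rfl⟩, ?_⟩
    rintro t ⟨ht, rfl, rfl⟩
    have := (h0 t).1 ht
    funext k
    fin_cases k
    · exact this
    · rfl
    · rfl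
  have sw : ∀ (i j : Fin 3) (a b : X m), (∃! t : Fin 3 → X m, t ∈ O ∧ t i = a ∧ t j = b) →
      ∃! t : Fin 3 → X m, t ∈ O ∧ t j = b ∧ t i = a := by
    rintro i j a b ⟨t, ⟨ht, h3, h4⟩, hu⟩
    exact ⟨t, ⟨ht, h4, h3⟩, fun s hs => hu s ⟨hs.1, hs.2.2, hs.2.1⟩⟩
  intro i j hij a b
  fin_cases i <;> fin_cases j
  · exact absurd rfl hij
  · exact k01 a b
  · exact k02 a b
  · exact sw _ _ _ _ (k01 b a)
  · exact absurd rfl hij
  · exact k12 a b
  · exact sw _ _ _ _ (k02 b a)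
  · exact sw _ _ _ _ (k12 b a)
  · exact absurd rfl hij

theorem isDivision_O₀ (n : ℕ) : IsDivision (O₀ n) := by
  rw [isDivision_iff]
  constructor
  · refine latin_of_funs (fun x y => (x.2 + y.1 + y.2, x.1 + y.2))
      (fun x z => (z.1 - x.2 - (z.2 - x.1), z.2 - x.1))
      (fun y z => (z.2 - y.2, z.1 - y.1 - y.2)) ?_ ?_ ?_
    · intro t
      simp only [O₀, Set.mem_setOf_eq, Prod.ext_iff]
    · intro t
      simp only [O₀, Set.mem_setOf_eq, Prod.ext_iff]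
      constructor
      · rintro ⟨h1, h2⟩
        rw [h1, h2]
        constructor <;> abel
      · rintro ⟨h1, h2⟩
        rw [h1, h2]
        constructor <;> abel
    · intro t
      simp only [O₀, Set.mem_setOf_eq, Prod.ext_iff]
      constructor
      · rintro ⟨h1, h2⟩
        rw [h1, h2]
        constructor <;> abel
      · rintro ⟨h1, h2⟩
        rw [h1, h2]
        constructor <;> abel
  · have k2 : ∀ (i j : Fin (n + 1)) (z : X (n + 1)),
        ∃ t ∈ O₀ n, (t 0).1 = i ∧ (t 1).1 = j ∧ t 2 = z := by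
      intro i j z
      refine ⟨![(i, z.1 - j - (z.2 - i)), (j, z.2 - i), z], ⟨?_, ?_⟩, rfl, rfl, rfl⟩
      · show z.1 = z.1 - j - (z.2 - i) + j + (z.2 - i)
        abel
      · show z.2 = i + (z.2 - i)
        abel
    have k1 : ∀ (i j : Fin (n + 1)) (y : X (n + 1)),
        ∃ t ∈ O₀ n, (t 0).1 = i ∧ (t 2).1 = j ∧ t 1 = y := by
      intro i j y
      refine ⟨![(i, j - y.1 - y.2), y, (j, i + y.2)], ⟨?_, ?_⟩, rfl, rfl, rfl⟩
      · show j = j - y.1 - y.2 + y.1 + y.2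
        abel
      · rfl
    have k0 : ∀ (i j : Fin (n + 1)) (x : X (n + 1)),
        ∃ t ∈ O₀ n, (t 1).1 = i ∧ (t 2).1 = j ∧ t 0 = x := by
      intro i j x
      refine ⟨![x, (i, j - x.2 - i), (j, x.1 + (j - x.2 - i))], ⟨?_, ?_⟩, rfl, rfl, rfl⟩
      · show j = x.2 + i + (j - x.2 - i)
        abel
      · rfl
    have sw : ∀ (p q r : Fin 3) (i j : Fin (n + 1)) (z : X (n + 1)),
        (∃ t ∈ O₀ n, (t p).1 = i ∧ (t q).1 = j ∧ t r = z) →
        ∃ t ∈ O₀ n, (t q).1 = j ∧ (t p).1 = i ∧ t r = z := by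
      rintro p q r i j z ⟨t, ht, h1, h2, h3⟩
      exact ⟨t, ht, h2, h1, h3⟩
    intro p q r hpq hpr hqr i j z
    fin_cases p <;> fin_cases q <;> fin_cases r
    all_goals first
      | exact absurd rfl hpq
      | exact absurd rfl hpr
      | exact absurd rfl hqr
      | exact k2 i j z
      | exact k1 i j z
      | exact k0 i j z
      | exact sw _ _ _ _ _ _ (k2 j i z)
      | exact sw _ _ _ _ _ _ (k1 j i z)
      | exact sw _ _ _ _ _ _ (k0 j i z)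

theorem main (m : ℕ) (hm : 1 ≤ m) : m ^ 2 - m ≤ c m ∧ c m ≤ m ^ 4 - m ^ 3 := by
  obtain ⟨n, rfl⟩ : ∃ n, m = n + 1 := ⟨m - 1, by omega⟩
  obtain ⟨S, hS, hcrit⟩ := exists_critical (determines_rows (isDivision_O₀ n) 0)
  have hne : {k | ∃ O S : Set (Fin 3 → X (n + 1)), IsDivision O ∧ IsCritical S O ∧
      S.ncard = k}.Nonempty := ⟨_, O₀ n, S, isDivision_O₀ n, hcrit, rfl⟩
  constructor
  · obtain ⟨O, S', hO, hS', hk⟩ := Nat.sInf_mem hne
    show (n + 1) ^ 2 - (n + 1) ≤ sInf _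
    rw [← hk, pow_two]
    exact lower hO hS'.1
  · have h1 : c (n + 1) ≤ S.ncard := Nat.sInf_le ⟨O₀ n, S, isDivision_O₀ n, hcrit, rfl⟩
    have h2 : S.ncard ≤ _ := Set.ncard_le_ncard hS (Set.toFinite _)
    have h3 := ncard_rows (isDivision_O₀ n) 0
    have h4 : (n + 1) * (n + 1 - 1) * ((n + 1) * (n + 1)) = (n + 1) ^ 4 - (n + 1) ^ 3 := by
      have : (n + 1) ^ 4 = (n + 1) * (n + 1 - 1) * ((n + 1) * (n + 1)) + (n + 1) ^ 3 := by
        rw [Nat.add_sub_cancel]; ring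
      omega
    omega

end Pool.Agent.Helper46.Late
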