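import Pool.Agent.Helper46.Late.Sud3
import Pool.Agent.Helper46.Late.Circ

/-! # The two triangles in every block determine the linear division sudoku -/

set_option autoImplicit false

namespace Pool.Agent.Helper46.Late

/-- the clues -/
def S₀ (n p : ℕ) : Set (Fin 3 → X (n + 1)) :=
  {t | t ∈ O₀ n ∧ ((t 0).2.val + (t 1).2.val < p ∨ n + 1 + p ≤ (t 0).2.val + (t 1).2.val)}

theorem determines_S₀ (n p : ℕ) (hp : p ≤ n + 1) : Determines (S₀ n p) (O₀ n) := by
  refine ⟨fun t ht => ht.1, fun O' hO' hsub => ?_⟩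
  obtain ⟨hL, -⟩ := isDivision_iff.1 (isDivision_O₀ n)
  obtain ⟨hL', hP'⟩ := isDivision_iff.1 hO'
  choose F hF using fun x y : X (n + 1) => (hL' 0 1 (by decide) x y).exists
  choose G hG using fun x z : X (n + 1) => (hL' 0 2 (by decide) x z).exists
  have hFeq : ∀ t ∈ O', F (t 0) (t 1) = t := fun t ht =>
    latin_eq hL' (i := 0) (j := 1) (by decide) (hF _ _).1 ht (hF _ _).2.1 (hF _ _).2.2
  have hGeq : ∀ t ∈ O', G (t 0) (t 2) = t := fun t ht =>
    latin_eq hL' (i := 0) (j := 2) (by decide) (hG _ _).1 ht (hG _ _).2.1 (hG _ _).2.2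
  have step1 : ∀ i j a b : Fin (n + 1), (F (i, a) (j, b) 2).1 - j = a + b := by
    intro i j
    refine circFin (fun a b => (F (i, a) (j, b) 2).1 - j) ?_ ?_ p hp ?_
    · intro a k
      obtain ⟨t, ht, h1, h2, h0⟩ := hP' 1 2 0 (by decide) (by decide) (by decide) j (k + j) (i, a)
      refine ⟨(t 1).2, ?_⟩
      have e1 : ((j, (t 1).2) : X (n + 1)) = t 1 := Prod.ext h1.symm rfl
      show (F (i, a) (j, (t 1).2) 2).1 - j = k
      rw [e1, ← h0, hFeq t ht, h2]
      abel
    · intro b a a' h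
      have h3 : (F (i, a) (j, b) 2).1 = (F (i, a') (j, b) 2).1 := sub_left_injective h
      have h4 := block_eq hO' (p := 0) (q := 2) (r := 1) (by decide) (by decide) (by decide)
        (hF (i, a) (j, b)).1 (hF (i, a') (j, b)).1
        (by rw [(hF (i, a) (j, b)).2.1, (hF (i, a') (j, b)).2.1]) h3
        (by rw [(hF (i, a) (j, b)).2.2, (hF (i, a') (j, b)).2.2])
      have h5 : ((i, a) : X (n + 1)) = (i, a') := by
        rw [← (hF (i, a) (j, b)).2.1, h4, (hF (i, a') (j, b)).2.1]
      exact congrArg Prod.snd h5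
    · intro a b hab
      have h3 : (![(i, a), (j, b), (a + j + b, i + b)] : Fin 3 → X (n + 1)) ∈ O' :=
        hsub ⟨⟨rfl, rfl⟩, hab⟩
      have h4 := hFeq _ h3
      show (F (i, a) (j, b) 2).1 - j = a + b
      have h5 : F (i, a) (j, b) = ![(i, a), (j, b), (a + j + b, i + b)] := h4
      rw [h5]
      show a + j + b - j = a + b
      abel
  have step2 : ∀ i k a s : Fin (n + 1), k - (G (i, a) (k, s + i) 1).1 = a + s := by
    intro i k
    refine circFin (fun a s => k - (G (i, a) (k, s + i) 1).1) ?_ ?_ p hp ?_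
    · intro a c
      obtain ⟨t, ht, h1, h2, h0⟩ := hP' 1 2 0 (by decide) (by decide) (by decide) (k - c) k (i, a)
      refine ⟨(t 2).2 - i, ?_⟩
      have e1 : ((k, (t 2).2 - i + i) : X (n + 1)) = t 2 :=
        Prod.ext h2.symm (sub_add_cancel _ _)
      show k - (G (i, a) (k, (t 2).2 - i + i) 1).1 = c
      rw [e1, ← h0, hGeq t ht, h1]
      abel
    · intro s a a' h
      have h3 : (G (i, a) (k, s + i) 1).1 = (G (i, a') (k, s + i) 1).1 := sub_right_injective h
      have h4 := block_eq hO' (p := 0) (q := 1) (r := 2) (by decide) (by decide) (by decide)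
        (hG (i, a) (k, s + i)).1 (hG (i, a') (k, s + i)).1
        (by rw [(hG (i, a) (k, s + i)).2.1, (hG (i, a') (k, s + i)).2.1]) h3
        (by rw [(hG (i, a) (k, s + i)).2.2, (hG (i, a') (k, s + i)).2.2])
      have h5 : ((i, a) : X (n + 1)) = (i, a') := by
        rw [← (hG (i, a) (k, s + i)).2.1, h4, (hG (i, a') (k, s + i)).2.1]
      exact congrArg Prod.snd h5
    · intro a s has
      have h3 : (![(i, a), (k - a - s, s), (k, s + i)] : Fin 3 → X (n + 1)) ∈ O' := by
        refine hsub ⟨⟨?_, ?_⟩, has⟩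
        · show k = a + (k - a - s) + s
          abel
        · show s + i = i + s
          abel
      have h5 : G (i, a) (k, s + i) = ![(i, a), (k - a - s, s), (k, s + i)] := hGeq _ h3
      show k - (G (i, a) (k, s + i) 1).1 = a + s
      rw [h5]
      show k - (k - a - s) = a + s
      abel
  have hsub2 : O' ⊆ O₀ n := by
    intro t ht
    have h1 := step1 (t 0).1 (t 1).1 (t 0).2 (t 1).2
    have h2 := step2 (t 0).1 (t 2).1 (t 0).2 ((t 2).2 - (t 0).1)
    rw [sub_add_cancel] at h2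
    have e1 : F ((t 0).1, (t 0).2) ((t 1).1, (t 1).2) = t := hFeq t ht
    have e2 : G ((t 0).1, (t 0).2) ((t 2).1, (t 2).2) = t := hGeq t ht
    rw [e1] at h1
    rw [e2] at h2
    have h3 : (t 0).2 + (t 1).2 = (t 0).2 + ((t 2).2 - (t 0).1) := by rw [← h1, ← h2]
    have h4 : (t 1).2 = (t 2).2 - (t 0).1 := add_left_cancel h3
    constructor
    · have h5 : (t 2).1 = (t 0).2 + (t 1).2 + (t 1).1 := sub_eq_iff_eq_add.1 h1
      rw [h5]
      abel
    · rw [h4]
      abel
  refine Set.Subset.antisymm hsub2 (fun t ht => ?_)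
  obtain ⟨s, ⟨hs, h1, h2⟩, -⟩ := hL' 0 1 (by decide) (t 0) (t 1)
  rw [← latin_eq hL (i := 0) (j := 1) (by decide) (hsub2 hs) ht h1 h2]
  exact hs

end Pool.Agent.Helper46.Late
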