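import Pool.Agent.Helper46.Late.Sud4

/-! # The bounds -/

set_option autoImplicit false

namespace Pool.Agent.Helper46.Late

theorem ncard_S₀ (n p : ℕ) (hp : 2 * p ≤ n + 1) (hp' : n + 1 ≤ 2 * p + 1) :
    (S₀ n p).ncard ≤ ((n + 1) * (n + 1)) * (p * (n + 1 - p)) := by
  classical
  obtain ⟨hL, -⟩ := isDivision_iff.1 (isDivision_O₀ n)
  set T : Finset ((Fin (n + 1) × Fin (n + 1)) × (ℕ × ℕ)) :=
    Finset.univ ×ˢ (Finset.range p ×ˢ Finset.range (n + 1 - p)) with hT
  have hcard : T.card = ((n + 1) * (n + 1)) * (p * (n + 1 - p)) := by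
    rw [hT, Finset.card_product, Finset.card_product, Finset.card_range, Finset.card_range]
    simp [Fintype.card_prod]
  rw [← hcard, ← Set.ncard_coe_finset]
  refine Set.ncard_le_ncard_of_injOn (fun t : Fin 3 → X (n + 1) => (((t 0).1, (t 1).1),
    if (t 0).2.val + (t 1).2.val < p then ((t 0).2.val + (t 1).2.val, (t 0).2.val)
    else (n - (t 0).2.val, (n - (t 0).2.val) + (n - (t 1).2.val) + 1))) ?_ ?_
    (Finset.finite_toSet _)
  · intro t ht
    have h0 := (t 0).2.2
    have h1 := (t 1).2.2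
    rw [hT, Finset.mem_coe, Finset.mem_product, Finset.mem_product, Finset.mem_range,
      Finset.mem_range]
    refine ⟨Finset.mem_univ _, ?_⟩
    rcases ht.2 with h | h
    · rw [if_pos h]
      exact ⟨h, by dsimp only; omega⟩
    · rw [if_neg (by omega)]
      constructor <;> dsimp only <;> omega
  · intro t ht t' ht' h
    have h0 := (t 0).2.2
    have h1 := (t 1).2.2
    have h0' := (t' 0).2.2
    have h1' := (t' 1).2.2
    have e1 : (t 0).1 = (t' 0).1 := congrArg (fun z => z.1.1) h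
    have e2 : (t 1).1 = (t' 1).1 := congrArg (fun z => z.1.2) h
    have e3 := congrArg (fun z => z.2) h
    dsimp only at e3
    have e4 : (t 0).2.val = (t' 0).2.val ∧ (t 1).2.val = (t' 1).2.val := by
      rcases ht.2 with h2 | h2 <;> rcases ht'.2 with h3 | h3
      · rw [if_pos h2, if_pos h3, Prod.mk.injEq] at e3
        omega
      · rw [if_pos h2, if_neg (by omega), Prod.mk.injEq] at e3
        omega
      · rw [if_neg (by omega), if_pos h3, Prod.mk.injEq] at e3
        omega
      · rw [if_neg (by omega), if_neg (by omega), Prod.mk.injEq] at e3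
        omega
    exact latin_eq hL (i := 0) (j := 1) (by decide) ht.1 ht'.1
      (Prod.ext e1 (Fin.ext e4.1)) (Prod.ext e2 (Fin.ext e4.2))

theorem bounds (m : ℕ) (hm : 1 ≤ m) : m ^ 2 - m ≤ c m ∧ c m ≤ m ^ 2 * (m ^ 2 / 4) := by
  obtain ⟨n, rfl⟩ : ∃ n, m = n + 1 := ⟨m - 1, by omega⟩
  have hp1 : 2 * ((n + 1) / 2) ≤ n + 1 := by omega
  have hp2 : n + 1 ≤ 2 * ((n + 1) / 2) + 1 := by omega
  obtain ⟨S, hS, hcrit⟩ := exists_critical (determines_S₀ n ((n + 1) / 2) (by omega))
  have hne : {k | ∃ O S : Set (Fin 3 → X (n + 1)), IsDivision O ∧ IsCritical S O ∧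
      S.ncard = k}.Nonempty := ⟨_, O₀ n, S, isDivision_O₀ n, hcrit, rfl⟩
  constructor
  · obtain ⟨O, S', hO, hS', hk⟩ := Nat.sInf_mem hne
    show (n + 1) ^ 2 - (n + 1) ≤ sInf _
    rw [← hk, pow_two]
    exact lower hO hS'.1
  · have h1 : c (n + 1) ≤ S.ncard := Nat.sInf_le ⟨O₀ n, S, isDivision_O₀ n, hcrit, rfl⟩
    have h2 : S.ncard ≤ _ := Set.ncard_le_ncard hS (Set.toFinite _)
    have h3 := ncard_S₀ n ((n + 1) / 2) hp1 hp2
    have h4 : (n + 1) / 2 * (n + 1 - (n + 1) / 2) = (n + 1) ^ 2 / 4 := by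
      rcases Nat.even_or_odd' (n + 1) with ⟨k, hk | hk⟩
      · rw [hk]
        have e1 : 2 * k / 2 = k := by omega
        have e2 : 2 * k - k = k := by omega
        rw [e1, e2]
        have e3 : (2 * k) ^ 2 = 4 * (k * k) := by ring
        rw [e3]
        omega
      · rw [hk]
        have e1 : (2 * k + 1) / 2 = k := by omega
        have e2 : 2 * k + 1 - k = k + 1 := by omega
        rw [e1, e2]
        have e3 : (2 * k + 1) ^ 2 = 4 * (k * (k + 1)) + 1 := by ring
        rw [e3]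
        omega
    rw [h4, ← pow_two] at h3
    omega

end Pool.Agent.Helper46.Late
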